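import Mathlib.LinearAlgebra.Complex.Module
import Mathlib.LinearAlgebra.Eigenspace.Basic
import Mathlib.LinearAlgebra.Complex.FiniteDimensional
import Mathlib.LinearAlgebra.BilinearMap
import Mathlib.Tactic.FinCases
import Mathlib.Tactic.NormNum
import Mathlib.Tactic.LinearCombination

/-!
# A real tridiagonal pair with two independent invariant symmetric bilinear forms

Negative answer to Q1 of MP_8ac8bf_al.
-/

set_option autoImplicit false

open Module.End

namespace Pool.Agent.Results.MP_8ac8bf_al.TwoForms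

variable {K : Type*} [Field K] {V : Type*} [AddCommGroup V] [Module K V]

/-- `A` is diagonalizable: the eigenspaces span `V`. -/
def Diagonalizable (A : V →ₗ[K] V) : Prop := ⨆ μ : K, eigenspace A μ = ⊤

/-- The eigenvalues of `A` (with nonzero eigenspaces, each listed once) can be ordered as
`θ_0, …, θ_d` in such a way that `B V_i ⊆ V_{i-1} + V_i + V_{i+1}`, where `V_i` is the eigenspace of
`A` for `θ_i`. -/
def HasOrdering (A B : V →ₗ[K] V) : Prop :=
  ∃ (d : ℕ) (θ : Fin (d + 1) → K), Function.Injective θ ∧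
    (∀ μ : K, HasEigenvalue A μ ↔ ∃ i, θ i = μ) ∧
    ∀ i, ∀ v ∈ eigenspace A (θ i),
      B v ∈ ⨆ j : Fin (d + 1), ⨆ _ : j.val ≤ i.val + 1 ∧ i.val ≤ j.val + 1, eigenspace A (θ j)

/-- A tridiagonal pair on the space `V` of finite positive dimension. -/
def IsTridiagonalPair (A B : V →ₗ[K] V) : Prop :=
  Module.Finite K V ∧ Nontrivial V ∧ Diagonalizable A ∧ Diagonalizable B ∧
    HasOrdering A B ∧ HasOrdering B A ∧
    ∀ W : Submodule K V, (∀ w ∈ W, A w ∈ W) → (∀ w ∈ W, B w ∈ W) → W = ⊥ ∨ W = ⊤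

/-- The bilinear form `F` is symmetric and `(A, B)`-invariant. -/
def IsInvariantSymm (A B : V →ₗ[K] V) (F : V →ₗ[K] V →ₗ[K] K) : Prop :=
  (∀ u v, F u v = F v u) ∧ (∀ u v, F (A u) v = F u (A v)) ∧ ∀ u v, F (B u) v = F u (B v)

/-- The projection to the second coordinate of `ℂ²`. -/
def opA : (ℂ × ℂ) →ₗ[ℝ] (ℂ × ℂ) where
  toFun p := (0, p.2)
  map_add' p q := by simp
  map_smul' r p := by simp

/-- The idempotent matrix with rows `(i, 1)` and `(1 + i, 1 - i)`. -/
def opB : (ℂ × ℂ) →ₗ[ℝ] (ℂ × ℂ) where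
  toFun p := (Complex.I * p.1 + p.2, (1 + Complex.I) * p.1 + (1 - Complex.I) * p.2)
  map_add' p q := by
    ext1
    · simp only [Prod.fst_add, Prod.snd_add]
      ring
    · simp only [Prod.fst_add, Prod.snd_add]
      ring
  map_smul' r p := by
    ext1
    · simp only [Prod.smul_fst, Prod.smul_snd, RingHom.id_apply, smul_add, mul_smul_comm]
    · simp only [Prod.smul_fst, Prod.smul_snd, RingHom.id_apply, smul_add, mul_smul_comm]

/-- The real bilinear form `Re (c ((1 + i) x x' + y y'))`. -/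
noncomputable def form (c : ℂ) : (ℂ × ℂ) →ₗ[ℝ] (ℂ × ℂ) →ₗ[ℝ] ℝ :=
  LinearMap.mk₂ ℝ (fun p q => (c * ((1 + Complex.I) * p.1 * q.1 + p.2 * q.2)).re)
    (fun p p' q => by
      rw [← Complex.add_re]
      congr 1
      simp only [Prod.fst_add, Prod.snd_add]
      ring)
    (fun r p q => by
      rw [smul_eq_mul, ← Complex.re_ofReal_mul]
      congr 1
      simp only [Prod.smul_fst, Prod.smul_snd, Complex.real_smul]
      ring)
    (fun p q q' => by
      rw [← Complex.add_re]
      congr 1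
      simp only [Prod.fst_add, Prod.snd_add]
      ring)
    (fun r p q => by
      rw [smul_eq_mul, ← Complex.re_ofReal_mul]
      congr 1
      simp only [Prod.smul_fst, Prod.smul_snd, Complex.real_smul]
      ring)

theorem form_apply (c : ℂ) (p q : ℂ × ℂ) :
    form c p q = (c * ((1 + Complex.I) * p.1 * q.1 + p.2 * q.2)).re := rfl

theorem opA_apply (p : ℂ × ℂ) : opA p = (0, p.2) := rfl

theorem opB_apply (p : ℂ × ℂ) :
    opB p = (Complex.I * p.1 + p.2, (1 + Complex.I) * p.1 + (1 - Complex.I) * p.2) := rfl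

theorem opA_idem (p : ℂ × ℂ) : opA (opA p) = opA p := rfl

theorem opB_idem (p : ℂ × ℂ) : opB (opB p) = opB p := by
  simp only [opB_apply]
  ext1
  · simp only
    linear_combination (p.1) * Complex.I_mul_I
  · simp only
    linear_combination (p.2) * Complex.I_mul_I

theorem inv_form (c : ℂ) : IsInvariantSymm opA opB (form c) := by
  refine ⟨fun u v => ?_, fun u v => ?_, fun u v => ?_⟩
  · rw [form_apply, form_apply]
    congr 1
    ring
  · rw [form_apply, form_apply, opA_apply, opA_apply]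
    simp
  · rw [form_apply, form_apply, opB_apply, opB_apply]
    congr 1
    simp only
    ring

/-- Idempotents different from `0` and `1` satisfy the axioms 1-3. -/
theorem idem_diag {W : Type*} [AddCommGroup W] [Module ℝ W] (P : W →ₗ[ℝ] W)
    (hP : ∀ p, P (P p) = P p) (p : W) :
    p ∈ eigenspace P (0 : ℝ) ⊔ eigenspace P (1 : ℝ) := by
  have h : p = (p - P p) + P p := by abel
  rw [h]
  refine Submodule.add_mem_sup ?_ ?_
  · rw [mem_eigenspace_iff, map_sub, hP, sub_self, zero_smul]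
  · rw [mem_eigenspace_iff, hP, one_smul]

theorem idem_diagonalizable {W : Type*} [AddCommGroup W] [Module ℝ W] (P : W →ₗ[ℝ] W)
    (hP : ∀ p, P (P p) = P p) : Diagonalizable P := by
  rw [Diagonalizable, eq_top_iff]
  intro p _
  have h := idem_diag P hP p
  have h1 : eigenspace P (0 : ℝ) ⊔ eigenspace P (1 : ℝ) ≤ ⨆ μ : ℝ, eigenspace P μ :=
    sup_le (le_iSup (fun μ : ℝ => eigenspace P μ) 0) (le_iSup (fun μ : ℝ => eigenspace P μ) 1)
  exact h1 h

theorem idem_ordering {W : Type*} [AddCommGroup W] [Module ℝ W] (P Q : W →ₗ[ℝ] W)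
    (hP : ∀ p, P (P p) = P p) (h0 : ∃ p, p ≠ 0 ∧ P p = 0) (h1 : ∃ p, p ≠ 0 ∧ P p = p) :
    HasOrdering P Q := by
  refine ⟨1, ![0, 1], ?_, ?_, ?_⟩
  · intro a b hab
    fin_cases a <;> fin_cases b <;> simp_all
  · intro μ
    constructor
    · intro h
      obtain ⟨v, hv⟩ := h.exists_hasEigenvector
      have h2 : P v = μ • v := hv.apply_eq_smul
      have h3 := hP v
      rw [h2, map_smul, h2, smul_smul] at h3
      have h4 : (μ * μ - μ) • v = 0 := by rw [sub_smul, h3, sub_self]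
      rcases smul_eq_zero.1 h4 with h5 | h5
      · have h6 : μ * (μ - 1) = 0 := by linear_combination h5
        rcases mul_eq_zero.1 h6 with h7 | h7
        · exact ⟨0, by simp [h7]⟩
        · exact ⟨1, by simp [sub_eq_zero.1 h7]⟩
      · exact (hv.2 h5).elim
    · rintro ⟨i, rfl⟩
      fin_cases i
      · obtain ⟨p, hp, hp2⟩ := h0
        exact hasEigenvalue_of_hasEigenvector (x := p)
          ⟨by rw [mem_eigenspace_iff, hp2]; simp, hp⟩
      · obtain ⟨p, hp, hp2⟩ := h1
        exact hasEigenvalue_of_hasEigenvector (x := p)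
          ⟨by rw [mem_eigenspace_iff, hp2]; simp, hp⟩
  · intro i v _
    have h := idem_diag P hP (Q v)
    have h2 : eigenspace P (0 : ℝ) ⊔ eigenspace P (1 : ℝ) ≤
        ⨆ j : Fin 2, ⨆ _ : j.val ≤ i.val + 1 ∧ i.val ≤ j.val + 1,
          eigenspace P ((![0, 1] : Fin 2 → ℝ) j) := by
      refine sup_le ?_ ?_
      · exact le_iSup_of_le 0 (le_iSup_of_le ⟨by simp, by have := i.2; simp; try omega⟩ le_rfl)
      · exact le_iSup_of_le 1 (le_iSup_of_le ⟨by simp, by have := i.2; simp; try omega⟩ le_rfl)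
    exact h2 h

theorem irred (W : Submodule ℝ (ℂ × ℂ)) (hA : ∀ w ∈ W, opA w ∈ W) (hB : ∀ w ∈ W, opB w ∈ W) :
    W = ⊥ ∨ W = ⊤ := by
  by_cases hW : W = ⊥
  · exact Or.inl hW
  right
  have h1 : ∀ w ∈ W, ((w.1, 0) : ℂ × ℂ) ∈ W := by
    intro w hw
    have := W.sub_mem hw (hA w hw)
    have h2 : w - opA w = (w.1, 0) := by
      rw [opA_apply]
      ext1 <;> simp
    rwa [h2] at this
  have h2 : ∀ w ∈ W, ((0, w.2) : ℂ × ℂ) ∈ W := fun w hw => hA w hw
  have a1 : ∀ x : ℂ, ((x, 0) : ℂ × ℂ) ∈ W → ((Complex.I * x, 0) : ℂ × ℂ) ∈ W := by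
    intro x hx
    have := h1 _ (hB _ hx)
    simpa [opB_apply] using this
  have a2 : ∀ x : ℂ, ((x, 0) : ℂ × ℂ) ∈ W → ((0, (1 + Complex.I) * x) : ℂ × ℂ) ∈ W := by
    intro x hx
    have := h2 _ (hB _ hx)
    simpa [opB_apply] using this
  have a3 : ∀ y : ℂ, ((0, y) : ℂ × ℂ) ∈ W → ((y, 0) : ℂ × ℂ) ∈ W := by
    intro y hy
    have := h1 _ (hB _ hy)
    simpa [opB_apply] using this
  -- all complex multiples
  have a4 : ∀ (x c : ℂ), ((x, 0) : ℂ × ℂ) ∈ W → ((c * x, 0) : ℂ × ℂ) ∈ W := by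
    intro x c hx
    have h3 := W.add_mem (W.smul_mem c.re hx) (W.smul_mem c.im (a1 x hx))
    have h4 : c.re • ((x, 0) : ℂ × ℂ) + c.im • ((Complex.I * x, 0) : ℂ × ℂ) = (c * x, 0) := by
      ext1
      · simp only [Prod.fst_add, Prod.smul_fst, Complex.real_smul]
        conv_rhs => rw [← Complex.re_add_im c]
        ring
      · simp
    rwa [h4] at h3
  obtain ⟨w, hw, hw0⟩ := Submodule.exists_mem_ne_zero_of_ne_bot hW
  have h3 : ∃ x : ℂ, x ≠ 0 ∧ ((x, 0) : ℂ × ℂ) ∈ W := by
    by_cases hx : w.1 = 0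
    · refine ⟨w.2, ?_, a3 _ (h2 w hw)⟩
      intro hy
      exact hw0 (Prod.ext hx hy)
    · exact ⟨w.1, hx, h1 w hw⟩
  obtain ⟨x, hx, hxW⟩ := h3
  have h4 : ∀ z : ℂ, ((z, 0) : ℂ × ℂ) ∈ W := by
    intro z
    have := a4 x (z / x) hxW
    rwa [div_mul_cancel₀ z hx] at this
  have h5 : ∀ z : ℂ, ((0, z) : ℂ × ℂ) ∈ W := by
    intro z
    have hI : (1 + Complex.I) ≠ 0 := by
      intro h
      have := congrArg Complex.re h
      simp at this
    have := a2 (z / (1 + Complex.I)) (h4 _)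
    rwa [mul_div_cancel₀ z hI] at this
  rw [eq_top_iff]
  intro p _
  have := W.add_mem (h4 p.1) (h5 p.2)
  have h6 : ((p.1, 0) : ℂ × ℂ) + (0, p.2) = p := by
    ext1 <;> simp
  rwa [h6] at this

/-- **Q1 is false.**  There is a tridiagonal pair on a four dimensional real vector space with two
symmetric invariant bilinear forms none of which is a scalar multiple of the other. -/
theorem result : ∃ A B : (ℂ × ℂ) →ₗ[ℝ] (ℂ × ℂ), IsTridiagonalPair A B ∧
    ∃ F G : (ℂ × ℂ) →ₗ[ℝ] (ℂ × ℂ) →ₗ[ℝ] ℝ, IsInvariantSymm A B F ∧ IsInvariantSymm A B G ∧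
      F ≠ 0 ∧ G ≠ 0 ∧ (∀ c : ℝ, F ≠ c • G) ∧ ∀ c : ℝ, G ≠ c • F := by
  refine ⟨opA, opB, ⟨inferInstance, inferInstance, idem_diagonalizable _ opA_idem,
    idem_diagonalizable _ opB_idem, ?_, ?_, irred⟩, form 1, form Complex.I, inv_form _, inv_form _,
    ?_, ?_, ?_, ?_⟩
  · exact idem_ordering _ _ opA_idem ⟨(1, 0), by simp, by simp [opA_apply]⟩
      ⟨(0, 1), by simp, by simp [opA_apply]⟩
  · refine idem_ordering _ _ opB_idem ⟨(1, -Complex.I), by simp, ?_⟩
      ⟨(1, 1 - Complex.I), by simp, ?_⟩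
    · rw [opB_apply]
      ext1
      · simp
      · simp only [Prod.snd_zero]
        linear_combination Complex.I_mul_I
    · rw [opB_apply]
      ext1
      · simp
      · simp only
        linear_combination Complex.I_mul_I
  · intro h
    have := congrArg (fun f => f (0, 1) (0, 1)) h
    simp [form_apply] at this
  · intro h
    have := congrArg (fun f => f (0, Complex.I) (0, 1)) h
    simp [form_apply] at this
  · intro c h
    have := congrArg (fun f => f (0, 1) (0, 1)) h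
    simp [form_apply] at this
  · intro c h
    have := congrArg (fun f => f (0, Complex.I) (0, 1)) h
    simp [form_apply] at this

end Pool.Agent.Results.MP_8ac8bf_al.TwoForms
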